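import Mathlib
import Pool.Agent.Lib.MP_1e1427_nt.LG.Asm

/-!
Four squares with `N = 2^(x+y) + 2^(z+w) + 1` free of all prime factors up to `δ (log n)²`, for every
large odd `n`, and coprime to `2 (2^W - 1)` for a prescribed `W` up to a power of `n`.
-/

namespace Pool.Agent.Results.MP_1e1427_nt.NoPrimeBelowLogSq

/-- For every `ε > 0` there are `δ > 0` and `n₀` such that for every odd `n ≥ n₀` and every integer
`1 ≤ W ≤ n^δ` there are at least `n^(1-ε)` distinct integers `N = 2^(x+y) + 2^(z+w) + 1` with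
`x² + y² + z² + w² = n` that are coprime to `2 (2^W - 1)` and have no prime factor `p` with
`p ≤ δ (log n)²` or with `p ∣ 2^k - 1` for some `1 ≤ k ≤ δ log n`. -/
theorem result (ε : ℝ) (hε : 0 < ε) :
    ∃ δ : ℝ, 0 < δ ∧ ∃ n₀ : ℕ, ∀ n : ℕ, n₀ ≤ n → Odd n → ∀ W : ℕ, 0 < W →
      (W : ℝ) ≤ (n : ℝ) ^ δ →
      (n : ℝ) ^ (1 - ε) ≤
        (({N : ℕ | ∃ x y z w : ℕ, x ^ 2 + y ^ 2 + z ^ 2 + w ^ 2 = n ∧
          N = 2 ^ (x + y) + 2 ^ (z + w) + 1 ∧ Nat.Coprime N (2 * (2 ^ W - 1)) ∧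
          ∀ p : ℕ, p.Prime → ((p : ℝ) ≤ δ * Real.log n ^ 2 ∨
            ∃ k : ℕ, 0 < k ∧ (k : ℝ) ≤ δ * Real.log n ∧ p ∣ 2 ^ k - 1) → ¬ p ∣ N} :
          Set ℕ).ncard : ℝ) :=
  Pool.Agent.Lib.MP1e1427.LG.main_lg ε hε

end Pool.Agent.Results.MP_1e1427_nt.NoPrimeBelowLogSq
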