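import Mathlib
import Pool.Agent.Lib.MP_1e1427_nt.Smooth3

/-!
Four squares and `N = 2^(x+y) + 2^(z+w) + 1`: for at least `n^(1-ε)` values `N` attached to
representations of `n`, the part of `N` composed of small primes is negligible.
-/

namespace Pool.Agent.Results.MP_1e1427_nt.SmoothPart

/-- For every `0 < ε ≤ 1/4` there are `δ > 0` and `n₀` such that for every odd `n ≥ n₀` and every
integer `1 ≤ W ≤ n^δ` there are at least `n^(1-ε)` distinct integers `N = 2^(x+y) + 2^(z+w) + 1`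
with `x² + y² + z² + w² = n` such that `N ≥ exp(√n/3)`, `N` is coprime to `2 (2^W - 1)`, the
product of the distinct primes `p ≤ n^(1-ε)` dividing `N` is at most `exp(n^(1/2-δ))`, and the
product of the prime powers `p^(v_p(N))` over the primes `p ≤ n^(3/4-ε)` is at most
`exp(n^(1/2-δ))`. -/
theorem result (ε : ℝ) (hε : 0 < ε) (hε1 : ε ≤ 1 / 4) :
    ∃ δ : ℝ, 0 < δ ∧ ∃ n₀ : ℕ, ∀ n : ℕ, n₀ ≤ n → Odd n → ∀ W : ℕ, 0 < W →
      (W : ℝ) ≤ (n : ℝ) ^ δ →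
      (n : ℝ) ^ (1 - ε) ≤
        (({N : ℕ | (∃ x y z w : ℕ, x ^ 2 + y ^ 2 + z ^ 2 + w ^ 2 = n ∧
            N = 2 ^ (x + y) + 2 ^ (z + w) + 1) ∧
          Real.exp (Real.sqrt n / 3) ≤ N ∧
          Nat.Coprime N (2 * (2 ^ W - 1)) ∧
          ∏ p ∈ N.primeFactors.filter (fun p : ℕ => (p : ℝ) ≤ (n : ℝ) ^ (1 - ε)), (p : ℝ) ≤
            Real.exp ((n : ℝ) ^ (1 / 2 - δ)) ∧
          ∏ p ∈ N.primeFactors.filter (fun p : ℕ => (p : ℝ) ≤ (n : ℝ) ^ (3 / 4 - ε)),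
            (p : ℝ) ^ (N.factorization p) ≤ Real.exp ((n : ℝ) ^ (1 / 2 - δ))} : Set ℕ).ncard : ℝ) :=
  Pool.Agent.Lib.MP1e1427.main_smooth ε hε hε1

end Pool.Agent.Results.MP_1e1427_nt.SmoothPart
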