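import Mathlib
import Pool.Agent.Lib.MP_1e1427_nt.SP.Fin
import Pool.Agent.Lib.MP_1e1427_nt.SP.N5

/-!
Almost every odd `n` has at least `n^(1/2-ε)` representations `x² + y² + z² + w² = n` such that the numbers
`2^(x+y) + 2^(z+w) + 1` are pairwise coprime, pass the strong base-2 test and have only prime factors
`p ≡ 1 (mod 4(x+y))`, `x + y` a prime `≥ √(4n/3)`.
-/

namespace Pool.Agent.Results.MP_1e1427_nt.StrongProbablePrime

/-- For every `ε > 0` the odd `n ≤ X` for which there is no set `S` of at least `n^(1/2-ε)` pairwise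
coprime integers `N = 2^(x+y) + 2^(z+w) + 1` with `x² + y² + z² + w² = n`, `q = x + y` prime, `4n ≤ 3q²`,
all prime factors of `N` congruent to `1` modulo `4q`, and `N` passing the strong probable prime test
to base `2` (`N - 1 = 2^s t`, `t` odd, `N ∣ 2^(2^i t) + 1` for some `i < s`), are `o(X)` in number. -/
theorem result (ε : ℝ) (hε : 0 < ε) :
    Filter.Tendsto (fun X : ℕ => ((({n : ℕ | n ≤ X ∧ Odd n ∧
      ¬ ∃ S : Finset ℕ, (n : ℝ) ^ (1 / 2 - ε) ≤ (S.card : ℝ) ∧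
        (∀ N ∈ S, ∃ x y z w : ℕ, x ^ 2 + y ^ 2 + z ^ 2 + w ^ 2 = n ∧
          N = 2 ^ (x + y) + 2 ^ (z + w) + 1 ∧ (x + y).Prime ∧ 4 * n ≤ 3 * (x + y) ^ 2 ∧
          (∀ p : ℕ, p.Prime → p ∣ N → p % (4 * (x + y)) = 1) ∧
          ∃ s t : ℕ, N - 1 = 2 ^ s * t ∧ Odd t ∧ ∃ i < s, N ∣ 2 ^ (2 ^ i * t) + 1) ∧
        (∀ N ∈ S, ∀ M ∈ S, N ≠ M → Nat.Coprime N M)} : Set ℕ).ncard : ℕ) : ℝ) / X)
      Filter.atTop (nhds 0) :=
  Pool.Agent.SP80.n5_main Pool.Agent.SP80.fin_l2 Pool.Agent.SP80.sn2 ε hε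

end Pool.Agent.Results.MP_1e1427_nt.StrongProbablePrime
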