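import Mathlib
import Pool.Agent.Lib.MP_1e1427_nt.ThreeSmooth

/-!
The three numbers attached to a representation of `n` as a sum of four squares: for at least
`n^(1-ε)` representations all three of them are large, have a negligible smooth part, and are
divisible by no prime factor `p` of `2^W - 1` other than those for which the order of `2` mod `p`
is `4 mod 8`.
-/

namespace Pool.Agent.Results.MP_1e1427_nt.ThreeSmooth

/-- For every `0 < ε ≤ 1/4` there are `δ > 0` and `n₀` such that for every odd `n ≥ n₀` and every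
integer `1 ≤ W ≤ n^δ` there are at least `n^(1-ε)` quadruples `(x,y,z,w)` of natural numbers with
`x² + y² + z² + w² = n` such that each `N` among the three numbers `2^(x+y) + 2^(z+w) + 1`,
`2^(x+z) + 2^(y+w) + 1`, `2^(x+w) + 2^(y+z) + 1` satisfies: `N ≥ exp(√n/3)`; every prime factor
`p` of `2^W - 1` dividing `N` has `ord_p(2) ≡ 4 (mod 8)`; the product of the distinct primes
`p ≤ n^(1-ε)` dividing `N` is at most `exp(n^(1/2-δ))`; the product of the prime powers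
`p^(v_p(N))` over the primes `p ≤ n^(3/4-ε)` is at most `exp(n^(1/2-δ))`. -/
theorem result (ε : ℝ) (hε : 0 < ε) (hε1 : ε ≤ 1 / 4) :
    ∃ δ : ℝ, 0 < δ ∧ ∃ n₀ : ℕ, ∀ n : ℕ, n₀ ≤ n → Odd n → ∀ W : ℕ, 0 < W →
      (W : ℝ) ≤ (n : ℝ) ^ δ →
      (n : ℝ) ^ (1 - ε) ≤
        (({q : ℕ × ℕ × ℕ × ℕ |
          q.1 ^ 2 + q.2.1 ^ 2 + q.2.2.1 ^ 2 + q.2.2.2 ^ 2 = n ∧
          ∀ N : ℕ, (N = 2 ^ (q.1 + q.2.1) + 2 ^ (q.2.2.1 + q.2.2.2) + 1 ∨
              N = 2 ^ (q.1 + q.2.2.1) + 2 ^ (q.2.1 + q.2.2.2) + 1 ∨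
              N = 2 ^ (q.1 + q.2.2.2) + 2 ^ (q.2.1 + q.2.2.1) + 1) →
            Real.exp (Real.sqrt n / 3) ≤ N ∧
            (∀ p : ℕ, p.Prime → p ∣ 2 ^ W - 1 → p ∣ N → orderOf (2 : ZMod p) % 8 = 4) ∧
            ∏ p ∈ N.primeFactors.filter (fun p : ℕ => (p : ℝ) ≤ (n : ℝ) ^ (1 - ε)), (p : ℝ) ≤
              Real.exp ((n : ℝ) ^ (1 / 2 - δ)) ∧
            ∏ p ∈ N.primeFactors.filter (fun p : ℕ => (p : ℝ) ≤ (n : ℝ) ^ (3 / 4 - ε)),
              (p : ℝ) ^ (N.factorization p) ≤ Real.exp ((n : ℝ) ^ (1 / 2 - δ))} :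
          Set (ℕ × ℕ × ℕ × ℕ)).ncard : ℝ) :=
  Pool.Agent.Lib.MP1e1427.main_three_smooth ε hε hε1

end Pool.Agent.Results.MP_1e1427_nt.ThreeSmooth
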